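import Pool.Agent.W376.SG.Tree

/-!
Project SG (helper37): the classes of the level groups.
-/

set_option autoImplicit false

namespace Pool.Agent.W376.SG

open Pool.Agent.W37.SG

theorem bdd_mono {d : ℕ → ℕ} (h : Monotone d) {s : ℕ} (hs : ∀ k, d k ≤ s) :
    ∃ j0, ∀ k, j0 ≤ k → d k = d j0 := by
  have hfin : (Set.range d).Finite := (Set.finite_Iic s).subset (by
    rintro _ ⟨k, rfl⟩
    exact hs k)
  obtain ⟨_, ⟨j0, rfl⟩, h1⟩ := Set.exists_max_image (Set.range d) id hfin ⟨_, 0, rfl⟩
  exact ⟨j0, fun k hk => le_antisymm (h1 _ ⟨k, rfl⟩) (h hk)⟩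

theorem main : S_CLS := by
  intro h1 h2 h3 h4 h5 hC hTR p _ s Q Qk H
  choose T hT using hTR p
  choose c hc hcard0 hcard using H.cc
  choose e he using pgroup_Qk hT h2 h3 hC H
  have hp : p.Prime := Fact.out
  have hp1 := hp.one_lt
  have hec : ∀ k, e k ≤ c k + s := by
    intro k
    have h := hcard k
    rw [he] at h
    exact (Nat.pow_le_pow_iff_right hp1).1 h
  have hke : ∀ k, k ≤ e k := by
    intro k
    have h := card_Qk hT h1 h2 h5 H k
    rw [he] at h
    exact (Nat.pow_le_pow_iff_right hp1).1 h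
  have hce : ∀ k, c k ≤ e k := by
    intro k
    have h := card_lcs_ge hp (he k) (hc k) (Nat.zero_le _)
    rw [Subgroup.lowerCentralSeries_zero, he, Nat.sub_zero] at h
    exact (Nat.pow_le_pow_iff_right hp1).1 h
  have hmono : Monotone c := by
    intro j k hjk
    refine (hc j).2 ?_
    change (Qk j).lowerCentralSeries (c k) = ⊥
    have h : (Qk k).lowerCentralSeries (c k) = ⊥ := (hc k).1
    rw [← Subgroup.top_subtype_lowerCentralSeries,
      Subgroup.map_eq_bot_iff_of_injective _ (Qk k).subtype_injective] at h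
    rw [← lcs_phi hT H hjk, h, Subgroup.map_bot]
  have hkerc : ∀ j k, j ≤ k → Nat.card (kerS hT H j k) * p ^ e j = p ^ e k := by
    intro j k hjk
    rw [← he j, ← he k]
    exact card_kerS hT H hjk
  have hfin : ∀ k, Finite (Qk k) := finite_Qk H
  have hkfin : ∀ j k, Finite (kerS hT H j k) := fun j k =>
    Finite.of_injective (fun x : kerS hT H j k =>
      (⟨x.1, ((mem_kerS hT H j k x.1).1 x.2).1⟩ : Qk k)) fun x y hxy =>
        Subtype.ext (congrArg (fun z : Qk k => (z : Pm p)) hxy)
  have hlow : ∀ j k, j ≤ k → p ^ (c k - c j) ≤ Nat.card ((Qk k).lowerCentralSeries (c j)) :=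
    fun j k hjk => card_lcs_ge hp (he k) (hc k) (hmono hjk)
  have hle : ∀ j k, j ≤ k → (Qk k).lowerCentralSeries (c j) ≤ kerS hT H j k :=
    fun j k hjk => lcs_le_ker hT H hjk (hc j).1
  have hcle : ∀ j k, j ≤ k →
      Nat.card ((Qk k).lowerCentralSeries (c j)) ≤ Nat.card (kerS hT H j k) := fun j k hjk =>
    have := hkfin j k
    Subgroup.card_le_of_le (hle j k hjk)
  have hdiff : ∀ j k, j ≤ k → (c k - c j) + e j ≤ e k := by
    intro j k hjk
    rw [← Nat.pow_le_pow_iff_right hp1, pow_add, ← hkerc j k hjk]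
    exact Nat.mul_le_mul_right _ ((hlow j k hjk).trans (hcle j k hjk))
  obtain ⟨j0, hj0⟩ := bdd_mono (d := fun k => e k - c k) (s := s) (by
    intro j k hjk
    have a1 := hdiff j k hjk
    have a2 := hmono hjk
    have a3 := hce j
    have a4 := hce k
    change e j - c j ≤ e k - c k
    omega) (by
    intro k
    have a1 := hec k
    change e k - c k ≤ s
    omega)
  have hcard_ker : ∀ j k, j0 ≤ j → j ≤ k → Nat.card (kerS hT H j k) = p ^ (c k - c j) := by
    intro j k hj hjk
    have a1 : e j - c j = e j0 - c j0 := hj0 j hj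
    have a2 : e k - c k = e j0 - c j0 := hj0 k (hj.trans hjk)
    have a3 := hce j
    have a4 := hce k
    have a5 := hmono hjk
    have a6 := hkerc j k hjk
    have a7 : e k = (c k - c j) + e j := by omega
    rw [a7, pow_add] at a6
    exact Nat.eq_of_mul_eq_mul_right (Nat.pow_pos hp.pos) a6
  have hker_eq : ∀ j k, j0 ≤ j → j ≤ k →
      (Qk k).lowerCentralSeries (c j) = kerS hT H j k := by
    intro j k hj hjk
    have := hkfin j k
    refine Subgroup.eq_of_le_of_card_ge (hle j k hjk) ?_
    rw [hcard_ker j k hj hjk]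
    exact hlow j k hjk
  refine ⟨c, j0, hc, hmono, fun N => ⟨N + s, ?_⟩, ?_, ?_, ?_⟩
  · have a1 := hke (N + s)
    have a2 := hec (N + s)
    omega
  · intro k i
    have b1 : ((Qk k).lowerCentralSeries i).relIndex (Qk k) *
        Nat.card ((Qk k).lowerCentralSeries i) = p ^ e k := by
      rw [← he k]
      have := Subgroup.card_mul_index (((Qk k).lowerCentralSeries i).subgroupOf (Qk k))
      rw [mul_comm, ← this]
      congr 1
      exact Nat.card_congr (Subgroup.subgroupOfEquivOfLe
        ((Qk k).lowerCentralSeries_le_self i)).symm.toEquiv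
    have b2 : 0 < p ^ e k := Nat.pow_pos hp.pos
    have b3 : ((Qk k).lowerCentralSeries i).relIndex (Qk k) ≠ 0 := by
      intro h
      rw [h, zero_mul] at b1
      omega
    refine ⟨b3, ?_⟩
    have b4 : 0 < Nat.card ((Qk k).lowerCentralSeries i) := by
      rcases Nat.eq_zero_or_pos (Nat.card ((Qk k).lowerCentralSeries i)) with h | h
      · rw [h, mul_zero] at b1
        omega
      · exact h
    rcases le_or_gt i (c k) with hi | hi
    · have b5 := card_lcs_ge hp (he k) (hc k) hi
      have b6 : ((Qk k).lowerCentralSeries i).relIndex (Qk k) * p ^ (c k - i) ≤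
          p ^ (i + s) * p ^ (c k - i) := by
        calc _ ≤ _ := Nat.mul_le_mul_left _ b5
          _ = p ^ e k := b1
          _ ≤ p ^ (i + s) * p ^ (c k - i) := by
            rw [← pow_add]
            refine Nat.pow_le_pow_right hp.pos ?_
            have := hec k
            omega
      exact Nat.le_of_mul_le_mul_right b6 (Nat.pow_pos hp.pos)
    · have b5 : ((Qk k).lowerCentralSeries i).relIndex (Qk k) ≤ p ^ e k := by
        rw [← b1]
        exact Nat.le_mul_of_pos_right _ b4
      refine b5.trans (Nat.pow_le_pow_right hp.pos ?_)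
      have := hec k
      omega
  · intro k i hk hi1 hi2
    refine le_antisymm ?_ (card_lcs_ge hp (he k) (hc k) hi2)
    have b1 := card_lcs hp (he k) (hc k) (c j0) (i - c j0) (by omega)
    rw [Nat.add_sub_cancel' hi1, hker_eq j0 k le_rfl hk, hcard_ker j0 k le_rfl hk] at b1
    have b2 : c k - c j0 = (i - c j0) + (c k - i) := by omega
    rw [b2, pow_add] at b1
    exact Nat.le_of_mul_le_mul_left b1 (Nat.pow_pos hp.pos)
  · intro j k hj hjk h
    rw [hker_eq j k hj hjk]
    exact mem_kerS hT H j k h

end Pool.Agent.W376.SG
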