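import Mathlib

/-!
Project SG (helper37): the lower central series of a finite `p`-subgroup.
-/

set_option autoImplicit false

namespace Pool.Agent.W376.SG

variable {G : Type} [Group G] (S : Subgroup G)

theorem lcs_stab {i : ℕ} (h : S.lowerCentralSeries (i + 1) = S.lowerCentralSeries i) (n : ℕ) :
    S.lowerCentralSeries (i + n) = S.lowerCentralSeries i := by
  induction n with
  | zero => rfl
  | succ n ih =>
    rw [← add_assoc, Subgroup.lowerCentralSeries_succ, ih, ← Subgroup.lowerCentralSeries_succ, h]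

theorem lcs_strict {c : ℕ} (hc : IsLeast {c : ℕ | S.lowerCentralSeries c = ⊥} c) {i : ℕ}
    (hi : i < c) : S.lowerCentralSeries (i + 1) < S.lowerCentralSeries i := by
  refine lt_of_le_of_ne (S.lowerCentralSeries_antitone (Nat.le_succ i)) fun h => ?_
  have h1 := lcs_stab S h (c - i)
  rw [Nat.add_sub_cancel' hi.le] at h1
  have h2 : S.lowerCentralSeries c = ⊥ := hc.1
  rw [h2] at h1
  exact absurd (hc.2 h1.symm) (not_le.2 hi)

variable {S} {p : ℕ} (hp : p.Prime) {e : ℕ} (hS : Nat.card S = p ^ e)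

include hp hS

theorem card_pow {H : Subgroup G} (h : H ≤ S) : ∃ a, Nat.card H = p ^ a := by
  have h1 : Nat.card H ∣ p ^ e := hS ▸ Subgroup.card_dvd_of_le h
  obtain ⟨a, -, ha⟩ := (Nat.dvd_prime_pow hp).1 h1
  exact ⟨a, ha⟩

theorem card_lt {H K : Subgroup G} (hK : K ≤ S) (h : H < K) :
    p * Nat.card H ≤ Nat.card K := by
  obtain ⟨a, ha⟩ := card_pow hp hS hK
  obtain ⟨b, hb⟩ := card_pow hp hS (h.le.trans hK)
  have hfin : Finite K := Nat.finite_of_card_ne_zero (by
    rw [ha]
    exact pow_ne_zero _ hp.ne_zero)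
  have h1 : Nat.card H ∣ Nat.card K := Subgroup.card_dvd_of_le h.le
  have h2 : Nat.card H ≠ Nat.card K := fun h3 =>
    h.ne (Subgroup.eq_of_le_of_card_ge h.le h3.ge)
  rw [ha, hb] at h1 h2 ⊢
  have h3 : b ≤ a := (Nat.pow_dvd_pow_iff_le_right hp.one_lt).1 h1
  have h4 : b ≠ a := fun h => h2 (by rw [h])
  rw [← pow_succ']
  exact Nat.pow_le_pow_right hp.pos (by omega)

theorem card_lcs {c : ℕ} (hc : IsLeast {c : ℕ | S.lowerCentralSeries c = ⊥} c) (a n : ℕ)
    (h : a + n ≤ c) :
    p ^ n * Nat.card (S.lowerCentralSeries (a + n)) ≤ Nat.card (S.lowerCentralSeries a) := by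
  induction n with
  | zero => simp
  | succ n ih =>
    have h1 := card_lt hp hS (S.lowerCentralSeries_le_self (a + n))
      (lcs_strict S hc (by omega : a + n < c))
    calc p ^ (n + 1) * Nat.card (S.lowerCentralSeries (a + (n + 1)))
        = p ^ n * (p * Nat.card (S.lowerCentralSeries (a + n + 1))) := by
          rw [pow_succ, mul_assoc, add_assoc]
      _ ≤ p ^ n * Nat.card (S.lowerCentralSeries (a + n)) := Nat.mul_le_mul_left _ h1
      _ ≤ _ := ih (by omega)

theorem card_lcs_ge {c : ℕ} (hc : IsLeast {c : ℕ | S.lowerCentralSeries c = ⊥} c) {i : ℕ}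
    (h : i ≤ c) : p ^ (c - i) ≤ Nat.card (S.lowerCentralSeries i) := by
  have h1 := card_lcs hp hS hc i (c - i) (by omega)
  rw [Nat.add_sub_cancel' h] at h1
  have h2 : S.lowerCentralSeries c = ⊥ := hc.1
  rw [h2, Subgroup.card_bot, mul_one] at h1
  exact h1

end Pool.Agent.W376.SG
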