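import Pool.Agent.W37.SG.Stm
import Pool.Agent.W376.SG.Lcs

/-!
Project SG (helper37): the level groups are finite `p`-groups.
-/

set_option autoImplicit false
set_option linter.unusedSectionVars false

namespace Pool.Agent.W376.SG

open Pool.Agent.W37.SG

variable {p : ℕ} [hp : Fact p.Prime]

theorem lvl_mul {k : ℕ} {g h : Pm p} (hg : IsLvl p k g) (hh : IsLvl p k h) :
    IsLvl p k (g * h) := by
  intro x i hi
  change g (h x) i = x i
  rw [hg _ _ hi, hh _ _ hi]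

theorem lvl_pow {k : ℕ} {g : Pm p} (hg : IsLvl p k g) (n : ℕ) : IsLvl p k (g ^ n) := by
  induction n with
  | zero => exact fun x i _ => rfl
  | succ n ih =>
    rw [pow_succ]
    exact lvl_mul ih hg

theorem lvl_ker {k : ℕ} {g : Pm p} (h1 : IsLvl p k g) (h2 : IsKer p k g) : g = 1 := by
  refine Equiv.ext fun x => funext fun i => ?_
  rcases lt_or_ge i k with hi | hi
  · exact h2 x i hi
  · exact h1 x i hi

theorem U_zero : U p 0 = ⊥ := by
  unfold U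
  rw [Submodule.span_eq_bot]
  rintro f ⟨i, hi, -⟩
  exact absurd hi (Nat.not_lt_zero i)

theorem U_mono {m n : ℕ} (h : m ≤ n) : U p m ≤ U p n :=
  Submodule.span_mono fun _ ⟨i, hi, hf⟩ => ⟨i, hi.trans_le h, hf⟩

theorem mon_mem {i n : ℕ} (h : i < n) : mon p i ∈ U p n := Submodule.subset_span ⟨i, h, rfl⟩

theorem dep_ker (h3 : S_D3) {k : ℕ} {g : Pm p} (hg : Dep p (p ^ k) g) : IsKer p k g := by
  intro x j hj
  have h1 : (fun x : ℕ → ZMod p => x j) ∈ U p (p ^ k) :=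
    (h3 p k _).2 fun x y h => h j hj
  have h4 := hg _ _ h1
  rw [Nat.sub_self, U_zero, Submodule.mem_bot] at h4
  exact sub_eq_zero.1 (congrFun h4 x)

theorem pow_dep (h2 : S_D2) (hC : S_DC) {g : Pm p} (hg : IsTri p g) (m : ℕ) :
    Dep p (p ^ m) (g ^ p ^ m) ∧ ∃ a, Lead p (p ^ m) (g ^ p ^ m) a := by
  induction m with
  | zero =>
    rw [pow_zero, pow_one]
    exact ⟨(h2 p g hg).1, _, (h2 p g hg).2⟩
  | succ m ih =>
    obtain ⟨h3, a, h4⟩ := ih
    have h5 : 1 ≤ p ^ m := Nat.one_le_pow _ _ hp.out.pos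
    have h6 := (hC p (p ^ m) (p ^ m) _ _ a a h5 h5 h3 h3 h4 h4).2.2.2
    rw [pow_succ', mul_comm p (p ^ m), pow_mul, mul_comm (p ^ m) p]
    exact ⟨h6.1, _, h6.2⟩

variable {s : ℕ} {Q : Subgroup (Pm p)} {Qk : ℕ → Subgroup (Pm p)}

theorem finite_Qk (H : TreeHyp p s Q Qk) (k : ℕ) : Finite (Qk k) := by
  obtain ⟨c, -, h, -⟩ := H.cc k
  exact Nat.finite_of_card_ne_zero h

section

variable {T : ℕ → Pm p → Pm p}
  (hT : ∀ k, (∀ g, IsTri p g → IsTrunc p k g (T k g) ∧ IsTri p (T k g) ∧ IsLvl p k (T k g)) ∧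
  (∀ g h, IsTri p g → IsTri p h → T k (g * h) = T k g * T k h) ∧
  (∀ g h, IsTri p g → IsTrunc p k g h → h = T k g) ∧
  (∀ g, IsTri p g → (T k g = 1 ↔ IsKer p k g)) ∧
  (∀ g, IsTri p g → ∀ f ∈ U p (p ^ k), ∀ x, f (T k g x) = f (g x)) ∧
  (∀ g d, IsTri p g → Dep p d g → Dep p d (T k g)))

include hT

theorem mem_Qk (H : TreeHyp p s Q Qk) (k : ℕ) (h : Pm p) :
    h ∈ Qk k ↔ ∃ g ∈ Q, h = T k g := by
  rw [H.trunc]
  constructor
  · rintro ⟨g, hg, h1⟩
    exact ⟨g, hg, (hT k).2.2.1 g h (H.tri g hg) h1⟩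
  · rintro ⟨g, hg, rfl⟩
    exact ⟨g, hg, ((hT k).1 g (H.tri g hg)).1⟩

theorem tri_Qk (H : TreeHyp p s Q Qk) {k : ℕ} {h : Pm p} (hh : h ∈ Qk k) : IsTri p h := by
  obtain ⟨g, hg, rfl⟩ := (mem_Qk hT H k h).1 hh
  exact ((hT k).1 g (H.tri g hg)).2.1

theorem lvl_Qk (H : TreeHyp p s Q Qk) {k : ℕ} {h : Pm p} (hh : h ∈ Qk k) : IsLvl p k h := by
  obtain ⟨g, hg, rfl⟩ := (mem_Qk hT H k h).1 hh
  exact ((hT k).1 g (H.tri g hg)).2.2

theorem T_T {j k : ℕ} (hjk : j ≤ k) {g : Pm p} (hg : IsTri p g) : T j (T k g) = T j g := by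
  refine (hT j).2.2.1 g _ hg fun x i => ?_
  have h1 := ((hT j).1 _ ((hT k).1 g hg).2.1).1 x i
  rw [h1]
  split_ifs with hi
  · rw [((hT k).1 g hg).1 x i, if_pos (hi.trans_le hjk)]
  · rfl

/-- the map to a smaller level -/
def phi (H : TreeHyp p s Q Qk) (j k : ℕ) : Qk k →* Pm p :=
  MonoidHom.mk' (fun x => T j x.1) fun a b =>
    (hT j).2.1 a.1 b.1 (tri_Qk hT H a.2) (tri_Qk hT H b.2)

theorem phi_range (H : TreeHyp p s Q Qk) {j k : ℕ} (hjk : j ≤ k) :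
    (phi hT H j k).range = Qk j := by
  ext h
  rw [mem_Qk hT H]
  constructor
  · rintro ⟨⟨x, hx⟩, rfl⟩
    obtain ⟨g, hg, rfl⟩ := (mem_Qk hT H k x).1 hx
    exact ⟨g, hg, T_T hT hjk (H.tri g hg)⟩
  · rintro ⟨g, hg, rfl⟩
    exact ⟨⟨T k g, (mem_Qk hT H k _).2 ⟨g, hg, rfl⟩⟩, T_T hT hjk (H.tri g hg)⟩

theorem lcs_phi (H : TreeHyp p s Q Qk) {j k : ℕ} (hjk : j ≤ k) (i : ℕ) :
    ((⊤ : Subgroup (Qk k)).lowerCentralSeries i).map (phi hT H j k) =
      (Qk j).lowerCentralSeries i := by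
  rw [Subgroup.map_lowerCentralSeries, ← MonoidHom.range_eq_map, phi_range hT H hjk]

/-- the kernel of the map to a smaller level -/
def kerS (H : TreeHyp p s Q Qk) (j k : ℕ) : Subgroup (Pm p) :=
  (phi hT H j k).ker.map (Qk k).subtype

theorem mem_kerS (H : TreeHyp p s Q Qk) (j k : ℕ) (h : Pm p) :
    h ∈ kerS hT H j k ↔ h ∈ Qk k ∧ IsKer p j h := by
  constructor
  · rintro ⟨⟨x, hx⟩, h1, rfl⟩
    exact ⟨hx, ((hT j).2.2.2.1 x (tri_Qk hT H hx)).1 h1⟩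
  · rintro ⟨h1, h2⟩
    exact ⟨⟨h, h1⟩, ((hT j).2.2.2.1 h (tri_Qk hT H h1)).2 h2, rfl⟩

theorem card_kerS (H : TreeHyp p s Q Qk) {j k : ℕ} (hjk : j ≤ k) :
    Nat.card (kerS hT H j k) * Nat.card (Qk j) = Nat.card (Qk k) := by
  have h1 := Subgroup.card_mul_index (phi hT H j k).ker
  rw [Subgroup.index_ker, phi_range hT H hjk] at h1
  rw [← h1]
  congr 1
  exact Nat.card_congr ((phi hT H j k).ker.equivMapOfInjective _
    (Qk k).subtype_injective).symm.toEquiv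

theorem lcs_le_ker (H : TreeHyp p s Q Qk) {j k : ℕ} (hjk : j ≤ k) {i : ℕ}
    (hi : (Qk j).lowerCentralSeries i = ⊥) : (Qk k).lowerCentralSeries i ≤ kerS hT H j k := by
  rw [← Subgroup.top_subtype_lowerCentralSeries]
  refine Subgroup.map_mono ?_
  rw [← lcs_phi hT H hjk, Subgroup.map_eq_bot_iff] at hi
  exact hi

theorem pgroup_Qk (h2 : S_D2) (h3 : S_D3) (hC : S_DC) (H : TreeHyp p s Q Qk) (k : ℕ) :
    ∃ e, Nat.card (Qk k) = p ^ e := by
  have := finite_Qk H k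
  refine IsPGroup.iff_card.1 fun g => ⟨k, ?_⟩
  apply Subtype.ext
  change (g : Pm p) ^ p ^ k = 1
  exact lvl_ker (lvl_pow (lvl_Qk hT H g.2) _)
    (dep_ker h3 (pow_dep h2 hC (tri_Qk hT H g.2) k).1)

theorem le_finrank (h1 : S_D1) (n : ℕ) :
    FiniteDimensional (ZMod p) (U p n) ∧ n ≤ Module.finrank (ZMod p) (U p n) := by
  have hfd : ∀ n, FiniteDimensional (ZMod p) (U p n) := by
    intro n
    refine FiniteDimensional.span_of_finite (ZMod p) ?_
    have h2 : {f | ∃ i < n, f = mon p i} = mon p '' Set.Iio n := by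
      ext f
      constructor
      · rintro ⟨i, hi, rfl⟩
        exact ⟨i, hi, rfl⟩
      · rintro ⟨i, hi, rfl⟩
        exact ⟨i, hi, rfl⟩
    rw [h2]
    exact (Set.finite_Iio n).image _
  refine ⟨hfd n, ?_⟩
  induction n with
  | zero => exact Nat.zero_le _
  | succ n ih =>
    have := hfd (n + 1)
    have h3 : U p n < U p (n + 1) :=
      lt_of_le_of_ne (U_mono (Nat.le_succ n)) fun h =>
        h1 p n (h ▸ mon_mem (Nat.lt_succ_self n))
    exact Nat.succ_le_of_lt (lt_of_le_of_lt ih (Submodule.finrank_lt_finrank_of_lt h3))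

theorem card_Qk (h1 : S_D1) (h2 : S_D2) (h5 : S_D5) (H : TreeHyp p s Q Qk) (k : ℕ) :
    p ^ k ≤ Nat.card (Qk k) := by
  have hfin := finite_Qk H k
  have hpk : 0 < p ^ k := Nat.pow_pos hp.out.pos
  let b : Qk k → Fn p := fun h x => mon p (p ^ k - 1) (h.1 x)
  let W : Submodule (ZMod p) (Fn p) := Submodule.span (ZMod p) (Set.range b)
  have hmon : mon p (p ^ k - 1) ∈ U p (p ^ k) := mon_mem (by omega)
  have hb : ∀ h, b h ∈ U p (p ^ k) := by
    intro h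
    have h3 := (h2 p h.1 (tri_Qk hT H h.2)).1 _ _ hmon
    have h4 := (U p (p ^ k)).add_mem (U_mono (Nat.sub_le _ _) h3) hmon
    have h6 : (fun x => mon p (p ^ k - 1) (h.1 x) - mon p (p ^ k - 1) x) + mon p (p ^ k - 1) =
        b h := by
      funext x
      exact sub_add_cancel _ _
    rwa [h6] at h4
  have hW : W ≤ U p (p ^ k) := by
    refine Submodule.span_le.2 ?_
    rintro _ ⟨h, rfl⟩
    exact hb h
  have hst : ∀ g ∈ Q, ∀ f ∈ W, (fun x => f (g x)) ∈ W := by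
    intro g hg f hf
    have h3 : W ≤ W.comap (LinearMap.funLeft (ZMod p) (ZMod p) (g : (ℕ → ZMod p) → _)) := by
      refine Submodule.span_le.2 ?_
      rintro _ ⟨h, rfl⟩
      change (fun x => b h (g x)) ∈ W
      have h4 : (fun x => b h (g x)) = b (h * ⟨T k g, (mem_Qk hT H k _).2 ⟨g, hg, rfl⟩⟩) := by
        funext x
        exact ((hT k).2.2.2.2.1 g (H.tri g hg) (b h) (hb h) x).symm
      rw [h4]
      exact Submodule.subset_span ⟨_, rfl⟩
    exact h3 hf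
  obtain ⟨n, hn, hWn⟩ := h5 h1 h2 p k Q H.tri (fun v _ => H.tau_ne v) W hW hst
  have hn2 : n = p ^ k := by
    by_contra h
    have h3 : mon p (p ^ k - 1) ∈ W := Submodule.subset_span ⟨1, rfl⟩
    rw [hWn] at h3
    exact h1 p _ (U_mono (by omega : n ≤ p ^ k - 1) h3)
  rw [hn2] at hWn
  have := Fintype.ofFinite (Qk k)
  have h3 : Module.finrank (ZMod p) W ≤ Fintype.card (Qk k) := finrank_range_le_card b
  rw [hWn, ← Nat.card_eq_fintype_card] at h3
  exact (le_finrank hT h1 (p ^ k)).2.trans h3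

end

end Pool.Agent.W376.SG
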